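import Pool.Agent.N266.TI.Stm

/-!
# Project TI: scaling and the triangle inequality of the energy; no boundary integral for weights
supported inside
-/

set_option autoImplicit false

namespace Pool.Agent.N383.TI

open MeasureTheory Metric Set
open Pool.Agent.N266.TI
open scoped ENNReal

variable {n : ℕ}

theorem cont_fd {φ : E n → ℝ} (h : ContDiff ℝ 1 φ) (v : E n) : Continuous fun x => fderiv ℝ φ x v :=
  (h.continuous_fderiv one_ne_zero).clm_apply continuous_const

theorem cs_fd {φ : E n → ℝ} (h : HasCompactSupport φ) (v : E n) :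
    HasCompactSupport fun x => fderiv ℝ φ x v :=
  h.fderiv_apply (𝕜 := ℝ) v

theorem cont_gr {φ : E n → ℝ} (h : ContDiff ℝ 1 φ) : Continuous (gr φ) := by
  unfold gr
  refine (PiLp.continuous_toLp 2 _).comp ?_
  exact continuous_pi fun i => cont_fd h (e i)

theorem gr_zero {φ : E n → ℝ} {x : E n} (h : fderiv ℝ φ x = 0) : gr φ x = 0 := by
  unfold gr
  ext i
  simp [h]

theorem cs_gr {φ : E n → ℝ} (h : HasCompactSupport φ) : HasCompactSupport (gr φ) := by
  refine (h.fderiv (𝕜 := ℝ)).mono ?_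
  intro x hx
  rw [Function.mem_support] at hx ⊢
  exact fun h => hx (gr_zero h)

theorem int_gr {φ : E n → ℝ} (h : ContDiff ℝ 1 φ) (hc : HasCompactSupport φ) :
    Integrable fun x => ‖gr φ x‖ ^ 2 := by
  refine ((cont_gr h).norm.pow 2).integrable_of_hasCompactSupport ?_
  refine (cs_gr hc).mono ?_
  intro x hx
  rw [Function.mem_support] at hx ⊢
  intro h
  apply hx
  simp [h]

theorem gr_add {φ ψ : E n → ℝ} (hφ : ContDiff ℝ 1 φ) (hψ : ContDiff ℝ 1 ψ) (b : ℝ) (x : E n) :
    gr (fun x => φ x + b * ψ x) x = gr φ x + b • gr ψ x := by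
  have h1 : DifferentiableAt ℝ φ x := (hφ.differentiable one_ne_zero) x
  have h2 : DifferentiableAt ℝ ψ x := (hψ.differentiable one_ne_zero) x
  have h3 : fderiv ℝ (fun x => φ x + b * ψ x) x = fderiv ℝ φ x + b • fderiv ℝ ψ x := by
    rw [fderiv_fun_add h1 (h2.const_mul b), fderiv_const_mul h2]
  unfold gr
  ext i
  simp [h3]

theorem sq_ineq {F : Type*} [NormedAddCommGroup F] [InnerProductSpace ℝ F] (a c : F) (b t : ℝ)
    (ht : 0 < t) : ‖a + b • c‖ ^ 2 ≤ (1 + t) * ‖a‖ ^ 2 + (1 + 1 / t) * b ^ 2 * ‖c‖ ^ 2 := by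
  have h1 : ‖a + b • c‖ ≤ ‖a‖ + |b| * ‖c‖ := by
    refine (norm_add_le _ _).trans ?_
    rw [norm_smul, Real.norm_eq_abs]
  have h2 : ‖a + b • c‖ ^ 2 ≤ (‖a‖ + |b| * ‖c‖) ^ 2 := by gcongr
  refine h2.trans ?_
  have h3 : b ^ 2 = |b| ^ 2 := (sq_abs b).symm
  rw [h3]
  set x := ‖a‖
  set y := |b| * ‖c‖ with hy
  have h4 : (1 + t) * x ^ 2 + (1 + 1 / t) * |b| ^ 2 * ‖c‖ ^ 2 - (x + y) ^ 2 =
      (1 / t) * (t * x - y) ^ 2 := by
    rw [hy]
    field_simp
    ring
  have h5 : 0 ≤ (1 / t) * (t * x - y) ^ 2 := by positivity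
  linarith

theorem ene : ENE := by
  intro n φ ψ b t l hφ hφc hψ hψc ht hl hn hl1
  constructor
  · unfold En
    have h1 := int_gr hφ hφc
    have h2 := int_gr hψ hψc
    rw [← integral_const_mul, ← integral_const_mul, ← integral_add (h1.const_mul _)
      (h2.const_mul _)]
    refine integral_mono_of_nonneg ?_ ((h1.const_mul _).add (h2.const_mul _)) ?_
    · exact Filter.Eventually.of_forall fun x => by positivity
    · refine Filter.Eventually.of_forall fun x => ?_
      show ‖gr (fun x => φ x + b * ψ x) x‖ ^ 2 ≤ _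
      rw [gr_add hφ hψ]
      exact sq_ineq _ _ b t ht
  · have h1 : ∀ x, gr (fun x => φ (l⁻¹ • x)) x = l⁻¹ • gr φ (l⁻¹ • x) := by
      intro x
      unfold gr
      ext i
      have := fderiv_comp_smul (𝕜 := ℝ) (f := φ) (x := x) l⁻¹
      simp [this]
    have h2 : En (fun x => φ (l⁻¹ • x)) = l ^ (n - 2) * En φ := by
      unfold En
      have h3 : (fun x => ‖gr (fun x => φ (l⁻¹ • x)) x‖ ^ 2) =
          fun x => (l⁻¹) ^ 2 * (fun y => ‖gr φ y‖ ^ 2) (l⁻¹ • x) := by
        funext x
        rw [h1, norm_smul, mul_pow, Real.norm_eq_abs, sq_abs]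
      rw [h3, integral_const_mul,
        Measure.integral_comp_smul volume (fun y : E n => ‖gr φ y‖ ^ 2) l⁻¹,
        finrank_euclideanSpace, Fintype.card_fin, smul_eq_mul, ← mul_assoc]
      congr 1
      rw [inv_pow l n, inv_inv, abs_of_pos (pow_pos hl n)]
      obtain ⟨m, rfl⟩ := Nat.exists_eq_add_of_le hn
      rw [Nat.add_sub_cancel_left, pow_add]
      field_simp
    rw [h2]
    have h3 : 0 ≤ En φ := integral_nonneg fun x => by positivity
    exact mul_le_of_le_one_left h3 (pow_le_one₀ hl.le hl1)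

theorem int_fd {f : E n → ℝ} (hf : ContDiff ℝ 1 f) (hc : HasCompactSupport f) (v : E n) :
    ∫ x, fderiv ℝ f x v = 0 := by
  have h1 : Integrable f := hf.continuous.integrable_of_hasCompactSupport hc
  have h2 : Integrable fun x => fderiv ℝ f x v :=
    (cont_fd hf v).integrable_of_hasCompactSupport (cs_fd hc v)
  have h3 := integral_mul_fderiv_eq_neg_fderiv_mul_of_integrable (μ := volume)
    (f := fun _ : E n => (1 : ℝ)) (g := f) (v := v) (by simp) (by simpa using h2) (by simpa using h1)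
    (fun x _ => differentiableAt_const _) (fun x _ => (hf.differentiable one_ne_zero) x)
  simpa using h3

theorem bz : BZ := by
  intro n Ω w hΩ hw hsub
  unfold bdryInt
  refine le_antisymm ?_ zero_le
  refine iSup_le fun X => iSup_le fun hX => ?_
  obtain ⟨h1, h2, h3⟩ := hX
  have h4 : tsupport X ⊆ tsupport w := by
    refine closure_mono ?_
    intro x hx
    rw [Function.mem_support] at hx ⊢
    intro h
    apply hx
    have := h3 x
    rw [h] at this
    exact norm_le_zero_iff.1 this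
  have h5 : ∀ x, x ∉ Ω → dv X x = 0 := by
    intro x hx
    have h6 : fderiv ℝ X x = 0 := by
      have : x ∉ tsupport X := fun h => hx (hsub (h4 h))
      exact fderiv_of_notMem_tsupport (𝕜 := ℝ) this
    unfold dv
    simp [h6]
  have h6 : ∫ x in Ω, dv X x = ∫ x, dv X x := by
    refine setIntegral_eq_integral_of_forall_compl_eq_zero h5
  have h7 : ∀ i : Fin n, ContDiff ℝ 1 (fun x => X x i) := by
    intro i
    exact (EuclideanSpace.proj i : E n →L[ℝ] ℝ).contDiff.comp h1
  have h8 : ∀ (i : Fin n) x, (fderiv ℝ X x (e i)) i = fderiv ℝ (fun x => X x i) x (e i) := by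
    intro i x
    have hd : DifferentiableAt ℝ X x := (h1.differentiable one_ne_zero) x
    have := ((EuclideanSpace.proj i : E n →L[ℝ] ℝ).hasFDerivAt.comp x hd.hasFDerivAt).fderiv
    have h9 : fderiv ℝ (fun x => X x i) x =
        (EuclideanSpace.proj i : E n →L[ℝ] ℝ).comp (fderiv ℝ X x) := this
    rw [h9]
    rfl
  have h9 : ∀ i : Fin n, HasCompactSupport (fun x => X x i) := by
    intro i
    refine h2.mono ?_
    intro x hx
    rw [Function.mem_support] at hx ⊢
    intro h
    apply hx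
    simp [h]
  have h10 : ∫ x, dv X x = 0 := by
    unfold dv
    simp_rw [h8]
    rw [integral_finsetSum]
    · exact Finset.sum_eq_zero fun i _ => int_fd (h7 i) (h9 i) (e i)
    · intro i _
      exact (cont_fd (h7 i) (e i)).integrable_of_hasCompactSupport (cs_fd (h9 i) (e i))
  rw [h6, h10, ENNReal.ofReal_zero]

end Pool.Agent.N383.TI
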